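import Pool.Agent.W744.BU.Stm

set_option autoImplicit false

open Set Filter Topology

namespace Pool.Agent.W336.BU.UN

open Pool.Agent.W744.BU

lemma norm_unitary_le {I : Type} (u : Op I) (hu : u ∈ unitary (Op I)) : ‖u‖ ≤ 1 := by
  have h1 : star u * u = 1 := (Unitary.mem_iff.1 hu).1
  have h2 : ‖u‖ * ‖u‖ ≤ 1 := by
    rw [← CStarRing.norm_star_mul_self, h1]
    exact ContinuousLinearMap.norm_id_le
  nlinarith [norm_nonneg u]

theorem main (hB : S_BLK) (hP : S_PP) (hY : S_YF) : S_UN := by
  intro D
  have key : ∀ n g, (seqR D n).X g ∈ unitary (Op (seqR D n).I) := by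
    intro n
    induction n with
    | zero =>
      intro g
      exact one_mem _
    | succ n ih =>
      intro g
      obtain ⟨-, hG⟩ := hP D (seqR D n) ih
      have good : Good D (UU (seqR D n)) :=
        hG (Op ((seqR D n).I × D.G)) (StarAlgHom.id ℂ (Op ((seqR D n).I × D.G)))
          (UU (seqR D n)) (fun z => rfl) (fun g => rfl)
      have hu : ∀ t : unitInterval, YF D (t : ℝ) (UU (seqR D n)) g
          ∈ unitary (Op ((seqR D n).I × D.G)) := fun t =>
        (hY D (Op ((seqR D n).I × D.G)) (UU (seqR D n)) good g).2.1 t t.2.1 t.2.2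
      exact (hB unitInterval (fun _ => (seqR D n).I × D.G)
        (fun t : unitInterval => YF D (t : ℝ) (UU (seqR D n)) g) 1
        (fun t => norm_unitary_le _ (hu t))).2.2 hu
  refine ⟨key, fun g => ?_⟩
  exact (hB ℕ (fun n => (seqR D n).I) (fun n => (seqR D n).X g) 1
    (fun n => norm_unitary_le _ (key n g))).2.2 (fun n => key n g)

end Pool.Agent.W336.BU.UN
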